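import Pool.Agent.Q121.SR.Lsp

/-! # Project SR: JOBS LFP and FPL (helper121) -/

open Set

namespace Q4.SR.Q121

universe u

section gen

variable {k : Type u} [Field k] {P : Type u} [PartialOrder P]

open Classical in
/-- maps out of sums of representables -/
noncomputable def yoM {M : PRep k P} {m : ℕ} (a : Fin m → P) (x : ∀ i, M.V (a i)) :
    RHom (ssum k fun i => upC (a i)) M where
  app p :=
    { toFun := fun c => ∑ i, if h : a i ≤ p then (c i).1 • M.map h (x i) else 0
      map_add' := by
        intro c c'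
        rw [← Finset.sum_add_distrib]
        refine Finset.sum_congr rfl fun i _ => ?_
        by_cases h : a i ≤ p
        · rw [dif_pos h, dif_pos h, dif_pos h]
          exact add_smul _ _ _
        · rw [dif_neg h, dif_neg h, dif_neg h, add_zero]
      map_smul' := by
        intro r c
        rw [RingHom.id_apply, Finset.smul_sum]
        refine Finset.sum_congr rfl fun i _ => ?_
        by_cases h : a i ≤ p
        · rw [dif_pos h, dif_pos h]
          exact mul_smul _ _ _
        · rw [dif_neg h, dif_neg h, smul_zero] }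
  comm := by
    intro p q hpq c
    change (∑ i, if h : a i ≤ q then ((((ssum k fun i => upC (a i)).map hpq c :
      ∀ i, Kif k (q ∈ (upC (a i)).1)) i).1) • M.map h (x i) else 0) =
      M.map hpq (∑ i, if h : a i ≤ p then (c i).1 • M.map h (x i) else 0)
    rw [map_sum]
    refine Finset.sum_congr rfl fun i _ => ?_
    by_cases hq : a i ≤ q
    · rw [dif_pos hq, ssum_map_val]
      have hq' : q ∈ (upC (a i)).1 := hq
      rw [if_pos hq']
      by_cases hp : a i ≤ p
      · rw [dif_pos hp, map_smul, M.map_map]
      · rw [dif_neg hp, map_zero]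
        have : (c i).1 = 0 := (c i).2.resolve_left hp
        rw [this, zero_smul]
    · have hp : ¬ a i ≤ p := fun hp => hq (hp.trans hpq)
      rw [dif_neg hq, dif_neg hp, map_zero]

open Classical in
theorem yoM_single {M : PRep k P} {m : ℕ} (a : Fin m → P) (x : ∀ i, M.V (a i)) (i : Fin m) (p : P)
    (hp : a i ≤ p) : ∃ c, (yoM a x).app p c = M.map hp (x i) := by
  refine ⟨fun j => if h : j = i then ⟨1, Or.inl (by rw [h]; exact hp)⟩ else 0, ?_⟩
  change (∑ j, if h : a j ≤ p then ((if h : j = i then (⟨1, Or.inl (by rw [h]; exact hp)⟩ :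
    Kif k (p ∈ (upC (a j)).1)) else 0 : Kif k (p ∈ (upC (a j)).1))).1 • M.map h (x j) else 0) = _
  rw [Finset.sum_eq_single i]
  · rw [dif_pos hp, dif_pos rfl]
    exact one_smul _ _
  · intro j _ hj
    rw [dif_neg hj]
    by_cases h : a j ≤ p
    · rw [dif_pos h]; exact zero_smul _ _
    · rw [dif_neg h]
  · intro h; exact absurd (Finset.mem_univ i) h

/-- generators over a finite poset -/
theorem gens [Finite P] (N : PRep k P) (hN : N.FD) : ∃ (m : ℕ) (a : Fin m → P)
    (g : RHom (ssum k fun i => upC (a i)) N), ∀ p, Function.Surjective (g.app p) := by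
  classical
  haveI := hN
  let J := Σ p : P, Fin (Module.finrank k (N.V p))
  have : Finite J := inferInstance
  let e : J ≃ Fin (Nat.card J) := Finite.equivFin J
  let b : ∀ p, Module.Basis (Fin (Module.finrank k (N.V p))) k (N.V p) :=
    fun p => haveI := hN p; Module.finBasis k (N.V p)
  let a : Fin (Nat.card J) → P := fun j => (e.symm j).1
  let x : ∀ j, N.V (a j) := fun j => b (e.symm j).1 (e.symm j).2
  refine ⟨Nat.card J, a, yoM a x, ?_⟩
  intro p
  rw [← LinearMap.range_eq_top, eq_top_iff, ← (b p).span_eq, Submodule.span_le]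
  rintro _ ⟨l, rfl⟩
  let j : Fin (Nat.card J) := e ⟨p, l⟩
  have key : ∀ (s : J), s = ⟨p, l⟩ → ∀ (h : s.1 ≤ p), N.map h (b s.1 s.2) = b p l := by
    rintro s rfl h
    exact N.map_refl _ _
  have hj : e.symm j = ⟨p, l⟩ := e.symm_apply_apply _
  have hp : a j ≤ p := by
    change (e.symm j).1 ≤ p
    rw [hj]
  obtain ⟨c, hc⟩ := yoM_single a x j p hp
  exact ⟨c, hc.trans (key _ hj hp)⟩

/-- the kernel representation -/
def rker {A B : PRep k P} (g : RHom A B) : PRep k P where
  V p := LinearMap.ker (g.app p)
  map := fun {p q} h => ((A.map h).comp (LinearMap.ker (g.app p)).subtype).codRestrict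
    (LinearMap.ker (g.app q)) (fun x => by
      rw [LinearMap.mem_ker, LinearMap.comp_apply]
      rw [g.comm, Submodule.subtype_apply, LinearMap.mem_ker.mp x.2, map_zero])
  map_refl := by
    intro p h x
    apply Subtype.ext
    exact A.map_refl h x.1
  map_map := by
    intro p q r h h' x
    apply Subtype.ext
    exact A.map_map h h' x.1

/-- inclusion of the kernel -/
def rkerI {A B : PRep k P} (g : RHom A B) : RHom (rker g) A where
  app p := (LinearMap.ker (g.app p)).subtype
  comm := by
    intro p q h x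
    rfl

theorem ssum_fd {n : ℕ} (S : Fin n → Cvx P) : (ssum k S).FD := by
  intro p
  change FiniteDimensional k (∀ i, Kif k (p ∈ (S i).1))
  infer_instance

/-- finite-dimensional representations of finite posets are finitely presented -/
theorem fd_fp [Finite P] (N : PRep k P) (hN : N.FD) : IsFP N := by
  obtain ⟨m, a, g, hg⟩ := gens N hN
  have hK : (rker g).FD := by
    intro p
    haveI := ssum_fd (k := k) (fun i => upC (a i)) p
    change FiniteDimensional k (LinearMap.ker (g.app p))
    infer_instance
  obtain ⟨n, b, f, hf⟩ := gens (rker g) hK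
  refine ⟨m, n, a, b, rcomp (rkerI g) f, g, hg, ?_⟩
  intro p x
  constructor
  · intro hx
    obtain ⟨y, hy⟩ := hf p ⟨x, hx⟩
    refine ⟨y, ?_⟩
    change (f.app p y).1 = x
    rw [hy]
  · rintro ⟨y, rfl⟩
    exact (f.app p y).2

end gen

section lfp

variable {k : Type u} [Field k] {T Q : Type u} [LinearOrder T] [PartialOrder Q]

theorem ext_upC (C : Finset T) (a : C × Q) :
    ext C (upC a) = upC (((a.1 : T), a.2) : T × Q) := by
  apply Subtype.ext
  ext x
  constructor
  · rintro ⟨h, h1, h2⟩
    exact ⟨le_trans (show (a.1 : T) ≤ fl C x.1 h from h1) (fl_le C _ h), h2⟩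
  · rintro ⟨h1, h2⟩
    have h : Has C x.1 := ⟨a.1, a.1.2, h1⟩
    exact ⟨h, le_fl C _ h a.1.2 h1, h2⟩

theorem tLFP : Q4.SR.SLFP.{u} := by
  intro k _ T Q _ _ _ C N hN
  obtain ⟨m, n, a, b, f, g, h1, h2⟩ := fd_fp N hN
  -- general form
  have key : ∃ (g' : RHom (ssum k fun i => ext C (upC (a i))) (Lx C N))
      (f' : RHom (ssum k fun j => ext C (upC (b j))) (ssum k fun i => ext C (upC (a i)))),
      (∀ p, Function.Surjective (g'.app p)) ∧ ∀ p x, g'.app p x = 0 ↔ ∃ y, f'.app p y = x := by
    refine ⟨rcomp (LxH C g) (rinv (LxS C _) (LxS_bij C _)),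
      rcomp (LxS C _) (rcomp (LxH C f) (rinv (LxS C _) (LxS_bij C _))), ?_, ?_⟩
    · intro p
      have hs : Function.Surjective ((LxH C g).app p) := by
        intro y
        refine ⟨fun h => (h1 _ (y h)).choose, ?_⟩
        funext h
        exact (h1 _ (y h)).choose_spec
      exact hs.comp (rinv_bij (LxS C fun i => upC (a i)) (LxS_bij C fun i => upC (a i)) p).2
    · intro p x
      have e1 : ∀ z : (Lx C (ssum k fun i => upC (a i))).V p,
          (LxH C g).app p z = 0 ↔ ∃ w, (LxH C f).app p w = z := by
        intro z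
        constructor
        · intro hz
          have hz' : ∀ h, g.app _ (z h) = 0 := fun h => congrFun hz h
          refine ⟨fun h => ((h2 _ (z h)).mp (hz' h)).choose, ?_⟩
          funext h
          exact ((h2 _ (z h)).mp (hz' h)).choose_spec
        · rintro ⟨w, rfl⟩
          funext h
          exact (h2 _ _).mpr ⟨w h, rfl⟩
      change (LxH C g).app p ((rinv (LxS C _) (LxS_bij C _)).app p x) = 0 ↔ _
      rw [e1]
      constructor
      · rintro ⟨w, hw⟩
        refine ⟨(LxS C _).app p w, ?_⟩
        change (LxS C _).app p ((LxH C f).app p ((rinv (LxS C _) (LxS_bij C _)).app p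
          ((LxS C _).app p w))) = x
        rw [rinv_app, hw, app_rinv]
      · rintro ⟨y, hy⟩
        change (LxS C _).app p ((LxH C f).app p ((rinv (LxS C _) (LxS_bij C _)).app p y)) = x
          at hy
        refine ⟨(rinv (LxS C _) (LxS_bij C _)).app p y, ?_⟩
        rw [← hy, rinv_app]
  have ea : (fun i => ext C (upC (a i))) = fun i => upC ((((a i).1 : T), (a i).2) : T × Q) :=
    funext fun i => ext_upC C (a i)
  have eb : (fun j => ext C (upC (b j))) = fun j => upC ((((b j).1 : T), (b j).2) : T × Q) :=
    funext fun i => ext_upC C (b i)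
  rw [ea, eb] at key
  obtain ⟨g', f', h3, h4⟩ := key
  exact ⟨m, n, _, _, f', g', h3, h4⟩

/-- restriction of a representation to `C × Q` -/
def res (C : Finset T) (M : PRep k (T × Q)) : PRep k (C × Q) where
  V x := M.V ((x.1 : T), x.2)
  map := fun {x y} h => M.map (show (((x.1 : T), x.2) : T × Q) ≤ ((y.1 : T), y.2) from
    ⟨h.1, h.2⟩)
  map_refl := by
    intro p h x
    exact M.map_refl _ _
  map_map := by
    intro p q r h h' x
    exact M.map_map _ _ _

open Classical in
/-- the counit -/
noncomputable def cou (C : Finset T) (M : PRep k (T × Q)) : RHom (Lx C (res C M)) M where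
  app x :=
    { toFun := fun u => if h : Has C x.1 then
        M.map (show (((fl C x.1 h : T), x.2) : T × Q) ≤ x from ⟨fl_le C _ h, le_refl _⟩) (u ⟨h⟩)
        else 0
      map_add' := by
        intro u v
        by_cases h : Has C x.1
        · rw [dif_pos h, dif_pos h, dif_pos h]
          exact map_add _ _ _
        · rw [dif_neg h, dif_neg h, dif_neg h, add_zero]
      map_smul' := by
        intro c u
        by_cases h : Has C x.1
        · rw [dif_pos h, dif_pos h]
          exact map_smul _ _ _
        · rw [dif_neg h, dif_neg h, smul_zero] }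
  comm := by
    intro x y hxy u
    change (if h : Has C y.1 then M.map (show (((fl C y.1 h : T), y.2) : T × Q) ≤ y from
        ⟨fl_le C _ h, le_refl _⟩) (((Lx C (res C M)).map hxy u) ⟨h⟩) else 0) =
      M.map hxy (if h : Has C x.1 then
        M.map (show (((fl C x.1 h : T), x.2) : T × Q) ≤ x from ⟨fl_le C _ h, le_refl _⟩) (u ⟨h⟩)
        else 0)
    by_cases hx : Has C x.1
    · have hy : Has C y.1 := hx.mono hxy.1
      rw [dif_pos hx, dif_pos hy, Lx_map_pos C _ hxy u ⟨hy⟩ hx]
      refine Eq.trans (M.map_map _ _ _) (M.map_map _ _ _).symm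
    · rw [dif_neg hx, map_zero]
      by_cases hy : Has C y.1
      · rw [dif_pos hy, Lx_map_neg C _ hxy u ⟨hy⟩ hx]
        exact map_zero _
      · rw [dif_neg hy]

theorem cou_pos (C : Finset T) (M : PRep k (T × Q)) (x : T × Q) (u : (Lx C (res C M)).V x)
    (h : Has C x.1) : (cou C M).app x u =
      M.map (show (((fl C x.1 h : T), x.2) : T × Q) ≤ x from ⟨fl_le C _ h, le_refl _⟩) (u ⟨h⟩) :=
  dif_pos h

/-- a map between two positions which see the same generators and relations is bijective -/
theorem map_bij {P : Type u} [PartialOrder P] (M : PRep k P) {m n : ℕ} (a : Fin m → P)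
    (b : Fin n → P) (f : RHom (ssum k fun j => upC (b j)) (ssum k fun i => upC (a i)))
    (g : RHom (ssum k fun i => upC (a i)) M) (h1 : ∀ p, Function.Surjective (g.app p))
    (h2 : ∀ p x, g.app p x = 0 ↔ ∃ y, f.app p y = x) {p' p : P} (hp : p' ≤ p)
    (ha : ∀ i, a i ≤ p → a i ≤ p') (hb : ∀ j, b j ≤ p → b j ≤ p') :
    Function.Bijective (M.map hp) := by
  classical
  have sur : ∀ {l : ℕ} (c : Fin l → P), (∀ i, c i ≤ p → c i ≤ p') →
      Function.Surjective ((ssum k fun i => upC (c i)).map hp) := by
    intro l c hc y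
    refine ⟨fun i => ⟨((y : ∀ i, Kif k (p ∈ (upC (c i)).1)) i).1, ?_⟩, ?_⟩
    · rcases ((y : ∀ i, Kif k (p ∈ (upC (c i)).1)) i).2 with h | h
      · exact Or.inl (hc i h)
      · exact Or.inr h
    · funext i
      apply Subtype.ext
      rw [ssum_map_val]
      by_cases h : p ∈ (upC (c i)).1
      · rw [if_pos h]
      · rw [if_neg h]
        exact (((y : ∀ i, Kif k (p ∈ (upC (c i)).1)) i).2.resolve_left h).symm
  have inj : ∀ {l : ℕ} (c : Fin l → P),
      Function.Injective ((ssum k fun i => upC (c i)).map hp) := by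
    intro l c
    rw [← LinearMap.ker_eq_bot, LinearMap.ker_eq_bot']
    intro y hy
    funext i
    apply Subtype.ext
    have h3 := congrArg Subtype.val (congrFun hy i)
    rw [ssum_map_val] at h3
    by_cases h : p' ∈ (upC (c i)).1
    · have h4 : p ∈ (upC (c i)).1 := le_trans h hp
      rw [if_pos h4] at h3
      exact h3
    · exact ((y : ∀ i, Kif k (p' ∈ (upC (c i)).1)) i).2.resolve_left h
  constructor
  · rw [← LinearMap.ker_eq_bot, LinearMap.ker_eq_bot']
    intro z hz
    obtain ⟨x, rfl⟩ := h1 p' z
    rw [← g.comm] at hz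
    obtain ⟨w, hw⟩ := (h2 p _).mp hz
    obtain ⟨w', rfl⟩ := sur b hb w
    rw [f.comm] at hw
    have := inj a hw
    rw [h2]
    exact ⟨w', this⟩
  · intro y
    obtain ⟨x, rfl⟩ := h1 p y
    obtain ⟨x', rfl⟩ := sur a ha x
    exact ⟨g.app p' x', (g.comm hp x').symm⟩

theorem tFPL : Q4.SR.SFPL.{u} := by
  intro k _ T Q _ _ _ _ M hM
  classical
  obtain ⟨m, n, a, b, f, g, h1, h2⟩ := hM
  obtain ⟨t0⟩ := ‹Nonempty T›
  let C : Finset T := insert t0 (Finset.univ.image (fun i => (a i).1) ∪
    Finset.univ.image (fun j => (b j).1))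
  have hCa : ∀ i, (a i).1 ∈ C := fun i => by
    apply Finset.mem_insert_of_mem
    apply Finset.mem_union_left
    exact Finset.mem_image_of_mem _ (Finset.mem_univ i)
  have hCb : ∀ j, (b j).1 ∈ C := fun j => by
    apply Finset.mem_insert_of_mem
    apply Finset.mem_union_right
    exact Finset.mem_image_of_mem _ (Finset.mem_univ j)
  have hMfd : M.FD := by
    intro p
    haveI := ssum_fd (k := k) (fun i => upC (a i)) p
    exact Module.Finite.of_surjective (g.app p) (h1 p)
  refine ⟨C, ⟨t0, Finset.mem_insert_self _ _⟩, res C M, cou C M, ?_, ?_⟩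
  · intro p
    exact hMfd _
  · intro p
    by_cases h : Has C p.1
    · have hb := map_bij M a b f g h1 h2
        (show (((fl C p.1 h : T), p.2) : T × Q) ≤ p from ⟨fl_le C _ h, le_refl _⟩)
        (fun i hi => ⟨le_fl C _ h (hCa i) hi.1, hi.2⟩)
        (fun i hi => ⟨le_fl C _ h (hCb i) hi.1, hi.2⟩)
      constructor
      · intro u v huv
        rw [cou_pos C M p u h, cou_pos C M p v h] at huv
        funext h'
        exact hb.1 huv
      · intro y
        obtain ⟨x, hx⟩ := hb.2 y
        refine ⟨fun _ => x, ?_⟩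
        rw [cou_pos C M p _ h]
        exact hx
    · have hz : ∀ y : M.V p, y = 0 := by
        intro y
        obtain ⟨x, rfl⟩ := h1 p y
        have : x = 0 := by
          funext i
          apply Subtype.ext
          refine ((x : ∀ i, Kif k (p ∈ (upC (a i)).1)) i).2.resolve_left ?_
          intro hi
          exact h ⟨_, hCa i, hi.1⟩
        rw [this, map_zero]
      constructor
      · intro u v _
        funext h'
        exact absurd h'.down h
      · intro y
        exact ⟨0, by rw [hz y, map_zero]⟩

end lfp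

end Q4.SR.Q121
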