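import Pool.Agent.Q4.SR.Stm

/-! # Project SR: JOB ISO (helper121) -/

open Set

namespace Q4.SR.Q121

universe u

variable {k : Type u} [Field k] {P : Type u} [PartialOrder P]

/-- composition of morphisms -/
def rcomp {A B C : PRep k P} (g : RHom B C) (f : RHom A B) : RHom A C where
  app p := (g.app p).comp (f.app p)
  comm := by
    intro p q h x
    simp only [LinearMap.comp_apply]
    rw [f.comm, g.comm]

/-- the inverse of a pointwise bijective morphism -/
noncomputable def rinv {M M' : PRep k P} (f : RHom M M')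
    (hf : ∀ p, Function.Bijective (f.app p)) : RHom M' M where
  app p := ((LinearEquiv.ofBijective (f.app p) (hf p)).symm : M'.V p →ₗ[k] M.V p)
  comm := by
    intro p q h x
    apply (hf q).1
    rw [f.comm]
    have e1 : ∀ (r : P) (z : M'.V r),
        f.app r (((LinearEquiv.ofBijective (f.app r) (hf r)).symm : M'.V r →ₗ[k] M.V r) z) = z :=
      fun r z => (LinearEquiv.ofBijective (f.app r) (hf r)).apply_symm_apply z
    rw [e1, e1]

theorem app_rinv {M M' : PRep k P} (f : RHom M M')
    (hf : ∀ p, Function.Bijective (f.app p)) (p : P) (z : M'.V p) :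
    f.app p ((rinv f hf).app p z) = z :=
  (LinearEquiv.ofBijective (f.app p) (hf p)).apply_symm_apply z

theorem rinv_app {M M' : PRep k P} (f : RHom M M')
    (hf : ∀ p, Function.Bijective (f.app p)) (p : P) (z : M.V p) :
    (rinv f hf).app p (f.app p z) = z :=
  (LinearEquiv.ofBijective (f.app p) (hf p)).symm_apply_apply z

theorem rinv_bij {M M' : PRep k P} (f : RHom M M')
    (hf : ∀ p, Function.Bijective (f.app p)) (p : P) :
    Function.Bijective ((rinv f hf).app p) :=
  (LinearEquiv.ofBijective (f.app p) (hf p)).symm.bijective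

theorem fp_iso {M M' : PRep k P} (f : RHom M M') (hf : ∀ p, Function.Bijective (f.app p))
    (h : IsFP M) : IsFP M' := by
  obtain ⟨m, n, a, b, g, g', h1, h2⟩ := h
  refine ⟨m, n, a, b, g, rcomp f g', ?_, ?_⟩
  · intro p
    exact (hf p).2.comp (h1 p)
  · intro p x
    rw [← h2 p x]
    change f.app p (g'.app p x) = 0 ↔ _
    rw [map_eq_zero_iff _ (hf p).1]

theorem ss_iso {M M' : PRep k P} (f : RHom M M') (hf : ∀ p, Function.Bijective (f.app p))
    (h : IsSpreadSum M) : IsSpreadSum M' := by
  obtain ⟨n, S, g, h1, h2⟩ := h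
  exact ⟨n, S, rcomp f g, h1, fun p => (hf p).comp (h2 p)⟩

theorem se_iso {N X M M' : PRep k P} (f : RHom M M') (hf : ∀ p, Function.Bijective (f.app p))
    (i : RHom N X) (p : RHom X M) (h : SpreadExact i p) : SpreadExact i (rcomp f p) := by
  obtain ⟨⟨h1, h2, h3⟩, h4⟩ := h
  refine ⟨⟨h1, ?_, ?_⟩, ?_⟩
  · intro x y
    rw [← h2 x y]
    change f.app x (p.app x y) = 0 ↔ _
    rw [map_eq_zero_iff _ (hf x).1]
  · intro x
    exact (hf x).2.comp (h3 x)
  · intro S hS g
    obtain ⟨g', hg'⟩ := h4 S hS (rcomp (rinv f hf) g)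
    refine ⟨g', fun r x => ?_⟩
    change f.app r (p.app r (g'.app r x)) = _
    rw [hg' r x]
    exact app_rinv f hf r _

theorem tISO : Q4.SR.SISO.{u} := by
  intro k _ P _ n M M' f hf h
  cases n with
  | zero => exact ⟨fp_iso f hf h.1, ss_iso f hf h.2⟩
  | succ n =>
    obtain ⟨N, X, i, p, h1, h2, h3, h4, h5⟩ := h
    exact ⟨N, X, i, rcomp f p, fp_iso f hf h1, h2, h3, se_iso f hf i p h4, h5⟩

end Q4.SR.Q121
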