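import Pool.Agent.Q121.SR.Res

/-! # Project SR: JOB LLI (helper121) -/

open Set

namespace Q4.SR.Q121

universe u

variable {k : Type u} [Field k] {T Q : Type u} [LinearOrder T] [PartialOrder Q]

/-- position in `C × Q` -/
noncomputable abbrev flp (C : Finset T) (x : T × Q) (h : Has C x.1) : C × Q := (fl C x.1 h, x.2)

theorem flp_mono (C : Finset T) {x y : T × Q} (hxy : x ≤ y) (hx : Has C x.1) (hy : Has C y.1) :
    flp C x hx ≤ flp C y hy := ⟨fl_mono C hx hy hxy.1, hxy.2⟩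

theorem blk_max (C : Finset T) {t0 t1 : T} {c1 : C} (h0 : Has C t0) (h0' : fl C t0 h0 ≤ c1)
    (h1 : Has C t1) (h1' : fl C t1 h1 = c1) :
    ∃ h : Has C (max t0 t1), fl C (max t0 t1) h = c1 := by
  rcases le_total t0 t1 with h | h
  · have e : max t0 t1 = t1 := max_eq_right h
    rw [e]
    exact ⟨h1, h1'⟩
  · have e : max t0 t1 = t0 := max_eq_left h
    rw [e]
    refine ⟨h0, le_antisymm h0' ?_⟩
    rw [← h1']
    exact fl_mono C h1 h0 h

theorem not_has_lt (C : Finset T) {s t : T} (hs : ¬ Has C s) (ht : Has C t) : s ≤ t := by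
  by_contra h
  push Not at h
  exact hs (ht.mono h.le)

/-- condition (a) -/
def cA (C : Finset T) (S : Set (T × Q)) (w : C × Q) : Prop :=
  ∀ t, (∃ h : Has C t, fl C t h = w.1) → ∃ t', (∃ h : Has C t', fl C t' h = w.1) ∧ t ≤ t' ∧
    (t', w.2) ∈ S

/-- condition (b) -/
def cB (C : Finset T) (S : Set (T × Q)) (q : Q) : Prop :=
  ∀ s r, (s, r) ∈ S → ¬ Has C s → ¬ r ≤ q

/-- the set `W` -/
def WW (C : Finset T) (S : Cvx (T × Q)) : Cvx (C × Q) :=
  ⟨{w | cA C S.1 w ∧ cB C S.1 w.2}, by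
    constructor
    rintro w ⟨hwa, hwb⟩ w2 ⟨hw2a, hw2b⟩ w1 ⟨h01, h12⟩
    refine ⟨?_, fun s r hs hn hr => hw2b s r hs hn (hr.trans h12.2)⟩
    rintro t1 ⟨ht1, ht1'⟩
    obtain ⟨t0, ⟨ht0, ht0'⟩, -, h0S⟩ := hwa (w.1 : T) ⟨has_coe C w.1, fl_coe C w.1 _⟩
    obtain ⟨hm, hm'⟩ := blk_max C ht0 (by rw [ht0']; exact h01.1) ht1 ht1'
    obtain ⟨hm2, hm2'⟩ := blk_max C hm (by rw [hm']; exact h12.1) (has_coe C w2.1)
      (fl_coe C w2.1 _)
    obtain ⟨t2, -, h2, h2S⟩ := hw2a _ ⟨hm2, hm2'⟩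
    refine ⟨max t0 t1, ⟨hm, hm'⟩, le_max_right _ _, ?_⟩
    exact S.2.out h0S h2S ⟨⟨le_max_left _ _, h01.2⟩, ⟨(le_max_left _ _).trans h2, h12.2⟩⟩⟩

section secs

variable {C : Finset T} {N : PRep k (C × Q)} {S : Cvx (T × Q)}

theorem sec_pos {σ : ∀ x, (Lx C N).V x} (hσ : σ ∈ Sec S (Lx C N)) {x y : T × Q} (hxy : x ≤ y)
    (hxS : x ∈ S.1) (hx : Has C x.1) (hy : Has C y.1) :
    σ y ⟨hy⟩ = N.map (flp_mono C hxy hx hy) (σ x ⟨hx⟩) := by
  rw [← hσ.2 x y hxy hxS]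
  exact Lx_map_pos C N hxy (σ x) ⟨hy⟩ hx

theorem sec_neg {σ : ∀ x, (Lx C N).V x} (hσ : σ ∈ Sec S (Lx C N)) {x y : T × Q} (hxy : x ≤ y)
    (hxS : x ∈ S.1) (hx : ¬ Has C x.1) (hy : Has C y.1) : σ y ⟨hy⟩ = 0 := by
  rw [← hσ.2 x y hxy hxS]
  exact Lx_map_neg C N hxy (σ x) ⟨hy⟩ hx

/-- maps along equalities are injective -/
theorem map_eq_inj {P : Type u} [PartialOrder P] (M : PRep k P) {a b : P} (h : a ≤ b) (h' : b ≤ a)
    {x : M.V a} (hx : M.map h x = 0) : x = 0 := by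
  have := M.map_map h h' x
  rw [hx, map_zero, M.map_refl] at this
  exact this.symm

/-- a point of `S` over a point of `W` -/
theorem pick {w : C × Q} (hw : w ∈ (WW C S).1) :
    ∃ x : T × Q, x ∈ S.1 ∧ ∃ h : Has C x.1, flp C x h = w := by
  obtain ⟨t0, ⟨ht0, ht0'⟩, -, h0S⟩ := hw.1 (w.1 : T) ⟨has_coe C w.1, fl_coe C w.1 _⟩
  exact ⟨(t0, w.2), h0S, ht0, Prod.ext ht0' rfl⟩

open Classical in
/-- the section `n` -/
noncomputable def nn (N : PRep k (C × Q)) (S : Cvx (T × Q)) (σ : ∀ x, (Lx C N).V x) (w : C × Q) :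
    N.V w :=
  if hw : w ∈ (WW C S).1 then
    N.map (le_of_eq (pick hw).choose_spec.2.choose_spec)
      (σ (pick hw).choose ⟨(pick hw).choose_spec.2.choose⟩)
  else 0

theorem nn_off (σ : ∀ x, (Lx C N).V x) {w : C × Q} (hw : w ∉ (WW C S).1) : nn N S σ w = 0 :=
  dif_neg hw

theorem same_val {σ : ∀ x, (Lx C N).V x} (hσ : σ ∈ Sec S (Lx C N)) {w : C × Q}
    {x : T × Q} (hx : x ∈ S.1) (h : Has C x.1) (e : flp C x h = w)
    {y : T × Q} (hy : y ∈ S.1) (h' : Has C y.1) (e' : flp C y h' = w) :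
    N.map (le_of_eq e') (σ y ⟨h'⟩) = N.map (le_of_eq e) (σ x ⟨h⟩) := by
  have hq : y.2 = x.2 := by
    have h1 := congrArg Prod.snd e'
    have h2 := congrArg Prod.snd e
    exact h1.trans h2.symm
  rcases le_total y.1 x.1 with h1 | h1
  · have hyx : y ≤ x := ⟨h1, le_of_eq hq⟩
    rw [sec_pos hσ hyx hy h' h, N.map_map]
  · have hxy : x ≤ y := ⟨h1, le_of_eq hq.symm⟩
    rw [sec_pos hσ hxy hx h h', N.map_map]

theorem nn_on {σ : ∀ x, (Lx C N).V x} (hσ : σ ∈ Sec S (Lx C N)) {w : C × Q}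
    (hw : w ∈ (WW C S).1) {x : T × Q} (hx : x ∈ S.1) (h : Has C x.1) (e : flp C x h = w) :
    nn N S σ w = N.map (le_of_eq e) (σ x ⟨h⟩) := by
  have e0 : nn N S σ w = N.map (le_of_eq (pick hw).choose_spec.2.choose_spec)
      (σ (pick hw).choose ⟨(pick hw).choose_spec.2.choose⟩) := dif_pos hw
  rw [e0]
  exact same_val hσ hx h e (pick hw).choose_spec.1 (pick hw).choose_spec.2.choose
    (pick hw).choose_spec.2.choose_spec

/-- points over `w'` above a given point -/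
theorem up_pt {x : T × Q} (hx : Has C x.1) {w' : C × Q} (h : flp C x hx ≤ w') :
    ∃ h' : Has C (max x.1 (w'.1 : T)), fl C (max x.1 (w'.1 : T)) h' = w'.1 :=
  blk_max C hx h.1 (has_coe C w'.1) (fl_coe C w'.1 _)

/-- the value of a section vanishes over a position outside `W` -/
theorem out_zero {σ : ∀ x, (Lx C N).V x} (hσ : σ ∈ Sec S (Lx C N)) {x : T × Q} (hxS : x ∈ S.1)
    (hx : Has C x.1) {w' : C × Q} (h : flp C x hx ≤ w') (hw' : w' ∉ (WW C S).1) :
    N.map h (σ x ⟨hx⟩) = 0 := by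
  obtain ⟨hm, hm'⟩ := up_pt hx h
  -- it is enough to find a point `y ≥ x` over `w'` with `σ y = 0`
  have key : ∀ y : T × Q, x ≤ y → ∀ hy : Has C y.1, flp C y hy = w' → σ y ⟨hy⟩ = 0 →
      N.map h (σ x ⟨hx⟩) = 0 := by
    intro y hxy hy e h0
    subst e
    rw [sec_pos hσ hxy hxS hx hy] at h0
    exact h0
  by_cases hb : cB C S.1 w'.2
  · have ha : ¬ cA C S.1 w' := fun ha => hw' ⟨ha, hb⟩
    unfold cA at ha
    push Not at ha
    obtain ⟨t1, ⟨ht1, ht1'⟩, hno⟩ := ha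
    obtain ⟨hM, hM'⟩ := blk_max C (t0 := max x.1 (w'.1 : T)) hm (le_of_eq hm') ht1 ht1'
    apply key (max (max x.1 (w'.1 : T)) t1, w'.2)
      ⟨(le_max_left _ _).trans (le_max_left _ _), h.2⟩ hM (Prod.ext hM' rfl)
    have hn := hno _ ⟨hM, hM'⟩ (le_max_right _ _)
    have := hσ.1 (max (max x.1 (w'.1 : T)) t1, w'.2) hn
    rw [this]
    rfl
  · unfold cB at hb
    push Not at hb
    obtain ⟨s, r, hsS, hns, hr⟩ := hb
    apply key (max x.1 (w'.1 : T), w'.2) ⟨le_max_left _ _, h.2⟩ hm (Prod.ext hm' rfl)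
    exact sec_neg hσ (x := (s, r)) ⟨not_has_lt C hns hm, hr⟩ hsS hns hm

theorem nn_sec {σ : ∀ x, (Lx C N).V x} (hσ : σ ∈ Sec S (Lx C N)) :
    (fun w => nn N S σ w) ∈ Sec (WW C S) N := by
  refine ⟨fun w hw => nn_off σ hw, fun w w' h hw => ?_⟩
  obtain ⟨x, hxS, hx, e⟩ := pick hw
  change N.map h (nn N S σ w) = nn N S σ w'
  rw [nn_on hσ hw hxS hx e, N.map_map]
  have h' : flp C x hx ≤ w' := (le_of_eq e).trans h
  by_cases hw' : w' ∈ (WW C S).1
  · obtain ⟨hm, hm'⟩ := up_pt hx h'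
    obtain ⟨t', ⟨ht', ht''⟩, hle, hS⟩ := hw'.1 _ ⟨hm, hm'⟩
    have hxy : x ≤ (t', w'.2) := ⟨(le_max_left _ _).trans hle, h'.2⟩
    rw [nn_on hσ hw' hS ht' (Prod.ext ht'' rfl), sec_pos hσ hxy hxS hx ht', N.map_map]
  · rw [nn_off σ hw']
    exact out_zero hσ hxS hx h' hw'

theorem nn_flp {σ : ∀ x, (Lx C N).V x} (hσ : σ ∈ Sec S (Lx C N)) {x : T × Q} (hxS : x ∈ S.1)
    (hx : Has C x.1) : nn N S σ (flp C x hx) = σ x ⟨hx⟩ := by
  by_cases hw : flp C x hx ∈ (WW C S).1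
  · rw [nn_on hσ hw hxS hx rfl, N.map_refl]
  · rw [nn_off σ hw]
    have := out_zero hσ hxS hx (le_refl _) hw
    rw [N.map_refl] at this
    exact this.symm

end secs

open Classical in
/-- lifting of sections -/
theorem lift_sec {C : Finset T} {B N : PRep k (C × Q)} (p : RHom B N)
    (hl : ∀ (W : Cvx (C × Q)), ∀ x ∈ Sec W N, ∃ y ∈ Sec W B, ∀ r, p.app r (y r) = x r)
    (S : Cvx (T × Q)) (σ : ∀ x, (Lx C N).V x) (hσ : σ ∈ Sec S (Lx C N)) :
    ∃ τ ∈ Sec S (Lx C B), ∀ x, (LxH C p).app x (τ x) = σ x := by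
  obtain ⟨b, hb, hpb⟩ := hl (WW C S) _ (nn_sec hσ)
  let τ : ∀ x, (Lx C B).V x := fun x h => if x ∈ S.1 then b (flp C x h.down) else 0
  have τ_in : ∀ x, x ∈ S.1 → ∀ h : Has C x.1, τ x ⟨h⟩ = b (flp C x h) := fun x hx h => if_pos hx
  have τ_out : ∀ x, x ∉ S.1 → ∀ h : Has C x.1, τ x ⟨h⟩ = 0 := fun x hx h => if_neg hx
  refine ⟨τ, ⟨?_, ?_⟩, ?_⟩
  · intro x hx
    funext h
    exact τ_out x hx h.down
  · intro x y hxy hxS
    funext h'
    obtain ⟨hy⟩ := h'
    by_cases hx : Has C x.1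
    · rw [Lx_map_pos C B hxy (τ x) ⟨hy⟩ hx, τ_in x hxS hx]
      by_cases hw : flp C x hx ∈ (WW C S).1
      · rw [hb.2 _ _ _ hw]
        by_cases hyS : y ∈ S.1
        · rw [τ_in y hyS hy]
        · rw [τ_out y hyS hy]
          apply hb.1
          intro hw'
          apply hyS
          obtain ⟨t', -, hle, hS⟩ := hw'.1 y.1 ⟨hy, rfl⟩
          exact S.2.out hxS hS ⟨hxy, ⟨hle, le_refl _⟩⟩
      · rw [hb.1 _ hw, map_zero]
        by_cases hyS : y ∈ S.1
        · rw [τ_in y hyS hy]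
          symm
          apply hb.1
          intro hw'
          apply hw
          refine ⟨?_, fun s r hs hn hr => hw'.2 s r hs hn (hr.trans hxy.2)⟩
          rintro t1 ⟨ht1, ht1'⟩
          obtain ⟨hm, hm'⟩ := blk_max C (t0 := x.1) hx (le_refl _) ht1 ht1'
          obtain ⟨hm2, hm2'⟩ := blk_max C (t0 := max x.1 t1) hm
            (by rw [hm']; exact fl_mono C hx hy hxy.1) hy rfl
          obtain ⟨t2, -, h2, h2S⟩ := hw'.1 _ ⟨hm2, hm2'⟩
          refine ⟨max x.1 t1, ⟨hm, hm'⟩, le_max_right _ _, ?_⟩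
          exact S.2.out hxS h2S
            ⟨⟨le_max_left _ _, le_refl _⟩, ⟨(le_max_left _ _).trans h2, hxy.2⟩⟩
        · rw [τ_out y hyS hy]
    · rw [Lx_map_neg C B hxy (τ x) ⟨hy⟩ hx]
      by_cases hyS : y ∈ S.1
      · rw [τ_in y hyS hy]
        symm
        apply hb.1
        intro hw'
        exact hw'.2 x.1 x.2 hxS hx hxy.2
      · rw [τ_out y hyS hy]
  · intro x
    funext h
    obtain ⟨h⟩ := h
    change p.app _ (τ x ⟨h⟩) = σ x ⟨h⟩
    by_cases hxS : x ∈ S.1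
    · rw [τ_in x hxS h, hpb]
      exact nn_flp hσ hxS h
    · rw [τ_out x hxS h, map_zero, hσ.1 x hxS]
      rfl

section lifts

variable {P : Type u} [PartialOrder P]

open Classical in
/-- the generator of `k_S` at `p` -/
noncomputable def oneV (S : Cvx P) (p : P) : (ssum k fun _ : Fin 1 => S).V p :=
  mkV fun _ => ⟨if p ∈ S.1 then 1 else 0, by
    by_cases h : p ∈ S.1
    · exact Or.inl h
    · exact Or.inr (if_neg h)⟩

open Classical in
theorem coV_one (S : Cvx P) (p : P) :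
    coV (T := fun _ : Fin 1 => S) 0 (oneV (k := k) S p) = if p ∈ S.1 then 1 else 0 := rfl

theorem eq_smul_one (S : Cvx P) (p : P) (c : (ssum k fun _ : Fin 1 => S).V p) :
    c = coV 0 c • oneV S p := by
  classical
  apply extV
  intro i
  have hi : i = 0 := Subsingleton.elim _ _
  subst hi
  rw [map_smul, coV_one, smul_eq_mul]
  by_cases h : p ∈ S.1
  · rw [if_pos h, mul_one]
  · rw [if_neg h, mul_zero]
    exact coV_off (T := fun _ : Fin 1 => S) c 0 h

theorem sec_of_hom {M : PRep k P} {S : Cvx P} (h : RHom (ssum k fun _ : Fin 1 => S) M) :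
    (fun p => h.app p (oneV S p)) ∈ Sec S M := by
  classical
  refine ⟨fun p hp => ?_, fun p q hpq hp => ?_⟩
  · have : oneV (k := k) S p = 0 := by
      apply extV
      intro i
      have hi : i = 0 := Subsingleton.elim _ _
      subst hi
      rw [coV_one, if_neg hp, map_zero]
    change h.app p (oneV S p) = 0
    rw [this, map_zero]
  · change M.map hpq (h.app p (oneV S p)) = h.app q (oneV S q)
    rw [← h.comm]
    congr 1
    apply extV
    intro i
    have hi : i = 0 := Subsingleton.elim _ _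
    subst hi
    rw [coV_map, coV_one, coV_one, if_pos hp]

/-- morphism from a section -/
noncomputable def hom_of_sec {M : PRep k P} {S : Cvx P} (σ : ∀ p, M.V p) (hσ : σ ∈ Sec S M) :
    RHom (ssum k fun _ : Fin 1 => S) M where
  app p :=
    { toFun := fun c => coV 0 c • σ p
      map_add' := by
        intro c c'
        rw [map_add, add_smul]
      map_smul' := by
        intro r c
        rw [map_smul, smul_eq_mul, mul_smul, RingHom.id_apply] }
  comm := by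
    classical
    intro p q h c
    change coV 0 ((ssum k fun _ : Fin 1 => S).map h c) • σ q = M.map h (coV 0 c • σ p)
    rw [map_smul, coV_map]
    by_cases hp : p ∈ S.1
    · rw [hσ.2 p q h hp]
      by_cases hq : q ∈ S.1
      · rw [if_pos hq]
      · rw [hσ.1 q hq, smul_zero, smul_zero]
    · rw [coV_off (T := fun _ : Fin 1 => S) c 0 hp, ite_self, zero_smul, zero_smul]

end lifts

theorem tLLI : Q4.SR.SLLI.{u} := by
  intro k _ T Q _ _ _ C A B N i p hs hl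
  refine ⟨LxH C i, LxH C p, ⟨?_, ?_, ?_⟩, ?_⟩
  · intro x a b hab
    funext h
    exact hs.1 _ (congrFun hab h)
  · intro x y
    constructor
    · intro hy
      refine ⟨fun h => ((hs.2.1 _ (y h)).mp (congrFun hy h)).choose, ?_⟩
      funext h
      exact ((hs.2.1 _ (y h)).mp (congrFun hy h)).choose_spec
    · rintro ⟨z, rfl⟩
      funext h
      exact (hs.2.1 _ _).mpr ⟨z h, rfl⟩
  · intro x y
    refine ⟨fun h => (hs.2.2 _ (y h)).choose, ?_⟩
    funext h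
    exact (hs.2.2 _ (y h)).choose_spec
  · intro S _ h
    obtain ⟨τ, hτ, hpτ⟩ := lift_sec p hl S _ (sec_of_hom h)
    refine ⟨hom_of_sec τ hτ, fun x c => ?_⟩
    change (LxH C p).app x (coV 0 c • τ x) = h.app x c
    rw [map_smul, hpτ]
    conv_rhs => rw [eq_smul_one S x c]
    rw [map_smul]

end Q4.SR.Q121
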