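import Pool.Agent.Q121.SR.Iso

/-! # Project SR: JOB LSP (helper121) -/

open Set

namespace Q4.SR.Q121

universe u

section comps

variable {P : Type u} [PartialOrder P]

/-- the zigzag relation -/
def ZR (Z : Set P) (x y : P) : Prop := x ∈ Z ∧ y ∈ Z ∧ (x ≤ y ∨ y ≤ x)

theorem ZR.symm {Z : Set P} {x y : P} (h : ZR Z x y) : ZR Z y x := ⟨h.2.1, h.1, h.2.2.symm⟩

theorem mem_comp {Z : Set P} {p q : P} :
    q ∈ comp Z p ↔ q ∈ Z ∧ p ∈ Z ∧ Relation.ReflTransGen (ZR Z) p q := Iff.rfl

theorem self_mem_comp {Z : Set P} {p : P} (hp : p ∈ Z) : p ∈ comp Z p :=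
  ⟨hp, hp, Relation.ReflTransGen.refl⟩

theorem rtg_symm {Z : Set P} {p q : P} (h : Relation.ReflTransGen (ZR Z) p q) :
    Relation.ReflTransGen (ZR Z) q p := by
  induction h with
  | refl => exact Relation.ReflTransGen.refl
  | tail _ h ih => exact Relation.ReflTransGen.head h.symm ih

theorem comp_eq {Z : Set P} {p q : P} (h : q ∈ comp Z p) : comp Z q = comp Z p := by
  obtain ⟨hq, hp, h1⟩ := h
  ext x
  constructor
  · rintro ⟨hx, _, h2⟩
    exact ⟨hx, hp, h1.trans h2⟩
  · rintro ⟨hx, _, h2⟩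
    exact ⟨hx, hq, (rtg_symm h1).trans h2⟩

theorem comp_step {Z : Set P} {p q r : P} (h : q ∈ comp Z p) (hr : r ∈ Z) (hqr : q ≤ r ∨ r ≤ q) :
    r ∈ comp Z p :=
  ⟨hr, h.2.1, h.2.2.tail ⟨h.1, hr, hqr⟩⟩

theorem comp_conn {Z : Set P} {p : P} (hp : p ∈ Z) : Conn (comp Z p) := by
  refine ⟨⟨p, self_mem_comp hp⟩, ?_⟩
  intro a ha b hb
  have h1 : b ∈ comp Z a := by rw [comp_eq ha]; exact hb
  have h2 := h1.2.2
  clear h1 hb
  induction h2 with
  | refl => exact Relation.ReflTransGen.refl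
  | @tail c d hac hcd ih =>
    have hc : c ∈ comp Z p := by
      have : c ∈ comp Z a := ⟨hcd.1, ha.1, hac⟩
      rw [comp_eq ha] at this; exact this
    have hd : d ∈ comp Z p := comp_step hc hcd.2.1 hcd.2.2
    exact ih.tail ⟨hc, hd, hcd.2.2⟩

theorem comp_ord {Z : Set P} (hZ : Z.OrdConnected) (p : P) : (comp Z p).OrdConnected := by
  constructor
  intro x hx y hy z hz
  exact comp_step hx (hZ.out hx.1 hy.1 hz) (Or.inl hz.1)

end comps

section decomp

variable {k : Type u} [Field k] {P : Type u} [PartialOrder P]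

open Classical in
theorem ssum_map_val {n : ℕ} (S : Fin n → Cvx P) {p q : P} (h : p ≤ q) (x : (ssum k S).V p)
    (i : Fin n) : (((ssum k S).map h x : ∀ i, Kif k (q ∈ (S i).1)) i).1 =
      if q ∈ (S i).1 then ((x : ∀ i, Kif k (p ∈ (S i).1)) i).1 else 0 := rfl

open Classical in
/-- the map from a sum of convex sets to the sum over a refinement -/
noncomputable def refMap {m n : ℕ} (S : Fin m → Cvx P) (S' : Fin n → Cvx P) (π : Fin n → Fin m)
    (hsub : ∀ j, (S' j).1 ⊆ (S (π j)).1)
    (hcl : ∀ j, ∀ p ∈ (S (π j)).1, ∀ q ∈ (S' j).1, p ≤ q → p ∈ (S' j).1) :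
    RHom (ssum k S) (ssum k S') where
  app p :=
    { toFun := fun y j => ⟨if p ∈ (S' j).1 then (y (π j)).1 else 0, by
        by_cases h : p ∈ (S' j).1
        · exact Or.inl h
        · exact Or.inr (if_neg h)⟩
      map_add' := by
        intro x y
        funext j
        apply Subtype.ext
        change (if p ∈ (S' j).1 then (x (π j)).1 + (y (π j)).1 else 0) =
          (if p ∈ (S' j).1 then (x (π j)).1 else 0) + (if p ∈ (S' j).1 then (y (π j)).1 else 0)
        by_cases h : p ∈ (S' j).1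
        · simp only [h, if_true]
        · simp [h]
      map_smul' := by
        intro c x
        funext j
        apply Subtype.ext
        change (if p ∈ (S' j).1 then c * (x (π j)).1 else 0) =
          c * (if p ∈ (S' j).1 then (x (π j)).1 else 0)
        by_cases h : p ∈ (S' j).1
        · simp only [h, if_true]
        · simp [h] }
  comm := by
    intro p q h x
    funext j
    apply Subtype.ext
    change (if q ∈ (S' j).1 then (if q ∈ (S (π j)).1 then (x (π j)).1 else 0) else 0) =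
      (if q ∈ (S' j).1 then (if p ∈ (S' j).1 then (x (π j)).1 else 0) else 0)
    by_cases hq : q ∈ (S' j).1
    · have hq2 : q ∈ (S (π j)).1 := hsub j hq
      simp only [hq, hq2, if_true]
      by_cases hp : p ∈ (S' j).1
      · simp only [hp, if_true]
      · have hp2 : p ∉ (S (π j)).1 := fun hh => hp (hcl j p hh q hq h)
        have : (x (π j)).1 = 0 := (x (π j)).2.resolve_left hp2
        simp only [hp, if_false, this]
    · simp only [hq, if_false]

theorem refMap_bij {m n : ℕ} (S : Fin m → Cvx P) (S' : Fin n → Cvx P) (π : Fin n → Fin m)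
    (hsub : ∀ j, (S' j).1 ⊆ (S (π j)).1)
    (hcl : ∀ j, ∀ p ∈ (S (π j)).1, ∀ q ∈ (S' j).1, p ≤ q → p ∈ (S' j).1)
    (hex : ∀ i, ∀ p ∈ (S i).1, ∃ j, π j = i ∧ p ∈ (S' j).1)
    (huniq : ∀ j j' p, π j = π j' → p ∈ (S' j).1 → p ∈ (S' j').1 → j = j') (p : P) :
    Function.Bijective ((refMap (k := k) S S' π hsub hcl).app p) := by
  classical
  constructor
  · rw [← LinearMap.ker_eq_bot, LinearMap.ker_eq_bot']
    intro y hy
    funext i
    apply Subtype.ext
    by_cases hp : p ∈ (S i).1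
    · obtain ⟨j, hj, hpj⟩ := hex i p hp
      have h1 := congrArg Subtype.val (congrFun hy j)
      change (if p ∈ (S' j).1 then (y (π j)).1 else 0) = 0 at h1
      rw [if_pos hpj] at h1
      subst hj
      exact h1
    · exact (y i).2.resolve_left hp
  · intro x
    let y : (ssum k S).V p := fun i =>
      if hp : p ∈ (S i).1 then ⟨(x (hex i p hp).choose).1, Or.inl hp⟩ else 0
    refine ⟨y, ?_⟩
    funext j
    apply Subtype.ext
    change (if p ∈ (S' j).1 then (y (π j)).1 else 0) = (x j).1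
    by_cases hpj : p ∈ (S' j).1
    · simp only [hpj, if_true]
      have hp := hsub j hpj
      have e : (hex (π j) p hp).choose = j := by
        have hs := (hex (π j) p hp).choose_spec
        exact huniq _ _ p hs.1 hs.2 hpj
      have ey : y (π j) = ⟨(x (hex (π j) p hp).choose).1, Or.inl hp⟩ := dif_pos hp
      rw [ey]
      change (x (hex (π j) p hp).choose).1 = (x j).1
      rw [e]
    · simp only [hpj, if_false]
      exact ((x j).2.resolve_left hpj).symm

/-- over a finite poset every sum of convex sets is a sum of spreads -/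
theorem spread_decomp [Finite P] {m : ℕ} (S : Fin m → Cvx P) :
    ∃ (n : ℕ) (S' : Fin n → Cvx P) (f : RHom (ssum k S') (ssum k S)),
      (∀ j, Conn (S' j).1) ∧ ∀ p, Function.Bijective (f.app p) := by
  classical
  let J := Σ i : Fin m, {Z : Set P // ∃ p ∈ (S i).1, Z = comp (S i).1 p}
  haveI : Finite J := inferInstance
  let e : J ≃ Fin (Nat.card J) := Finite.equivFin J
  let S' : Fin (Nat.card J) → Cvx P := fun j => ⟨(e.symm j).2.1, by
    obtain ⟨p, hp, hZ⟩ := (e.symm j).2.2
    rw [hZ]; exact comp_ord (S _).2 p⟩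
  let π : Fin (Nat.card J) → Fin m := fun j => (e.symm j).1
  have hsub : ∀ j, (S' j).1 ⊆ (S (π j)).1 := by
    intro j x hx
    obtain ⟨p, hp, hZ⟩ := (e.symm j).2.2
    have hx' : x ∈ (e.symm j).2.1 := hx
    rw [hZ] at hx'
    exact hx'.1
  have hcl : ∀ j, ∀ p ∈ (S (π j)).1, ∀ q ∈ (S' j).1, p ≤ q → p ∈ (S' j).1 := by
    intro j p hp q hq hpq
    obtain ⟨r, hr, hZ⟩ := (e.symm j).2.2
    have hq' : q ∈ (e.symm j).2.1 := hq
    change p ∈ (e.symm j).2.1
    rw [hZ] at hq' ⊢
    exact comp_step hq' hp (Or.inr hpq)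
  have hex : ∀ i, ∀ p ∈ (S i).1, ∃ j, π j = i ∧ p ∈ (S' j).1 := by
    intro i p hp
    refine ⟨e ⟨i, ⟨comp (S i).1 p, p, hp, rfl⟩⟩, ?_, ?_⟩
    · simp only [π, Equiv.symm_apply_apply]
    · change p ∈ (e.symm (e ⟨i, ⟨comp (S i).1 p, p, hp, rfl⟩⟩)).2.1
      rw [Equiv.symm_apply_apply]
      exact self_mem_comp hp
  have huniq : ∀ j j' p, π j = π j' → p ∈ (S' j).1 → p ∈ (S' j').1 → j = j' := by
    intro j j' p hjj h1 h2
    apply e.symm.injective
    have h1' : p ∈ (e.symm j).2.1 := h1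
    have h2' : p ∈ (e.symm j').2.1 := h2
    have hjj' : (e.symm j).1 = (e.symm j').1 := hjj
    generalize e.symm j = a at h1' hjj'
    generalize e.symm j' = b at h2' hjj'
    obtain ⟨i, Z, q, hq, hZ⟩ := a
    obtain ⟨i', Z', q', hq', hZ'⟩ := b
    dsimp only at hjj' h1' h2'
    subst hjj'
    subst hZ hZ'
    have : comp (S i).1 q = comp (S i).1 q' := by
      rw [← comp_eq h1', ← comp_eq h2']
    simp only [this]
  refine ⟨Nat.card J, S', rinv (refMap S S' π hsub hcl)
    (refMap_bij S S' π hsub hcl hex huniq), ?_, ?_⟩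
  · intro j
    obtain ⟨p, hp, hZ⟩ := (e.symm j).2.2
    change Conn (e.symm j).2.1
    rw [hZ]
    exact comp_conn hp
  · intro p
    exact rinv_bij _ _ p

end decomp

section lx

variable {k : Type u} [Field k] {T Q : Type u} [LinearOrder T] [PartialOrder Q]

theorem Lx_map_pos (C : Finset T) (N : PRep k (C × Q)) {x y : T × Q} (hxy : x ≤ y)
    (f : (Lx C N).V x) (h' : PLift (Has C y.1)) (h : Has C x.1) :
    ((Lx C N).map hxy f) h' = N.map (show (fl C x.1 h, x.2) ≤ (fl C y.1 h'.down, y.2) from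
            ⟨fl_mono C h h'.down hxy.1, hxy.2⟩) (f ⟨h⟩) := dif_pos h

theorem Lx_map_neg (C : Finset T) (N : PRep k (C × Q)) {x y : T × Q} (hxy : x ≤ y)
    (f : (Lx C N).V x) (h' : PLift (Has C y.1)) (h : ¬ Has C x.1) :
    ((Lx C N).map hxy f) h' = 0 := dif_neg h

/-- `Lx` on morphisms -/
noncomputable def LxH (C : Finset T) {A B : PRep k (C × Q)} (f : RHom A B) :
    RHom (Lx C A) (Lx C B) where
  app x :=
    { toFun := fun g h => f.app _ (g h)
      map_add' := by
        intro g g'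
        funext h
        exact map_add _ _ _
      map_smul' := by
        intro c g
        funext h
        exact map_smul _ _ _ }
  comm := by
    intro x y hxy g
    funext h'
    by_cases h : Has C x.1
    · have e1 : ((Lx C A).map hxy g) h' = A.map (show (fl C x.1 h, x.2) ≤ (fl C y.1 h'.down, y.2)
        from ⟨fl_mono C h h'.down hxy.1, hxy.2⟩) (g ⟨h⟩) := Lx_map_pos C A hxy g h' h
      have e2 := Lx_map_pos C B hxy (fun h => f.app _ (g h)) h' h
      refine Eq.trans (congrArg (f.app _) e1) (Eq.trans (f.comm _ _) e2.symm)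
    · have e1 : ((Lx C A).map hxy g) h' = 0 := Lx_map_neg C A hxy g h' h
      have e2 := Lx_map_neg C B hxy (fun h => f.app _ (g h)) h' h
      refine Eq.trans (congrArg (f.app _) e1) (Eq.trans (map_zero _) e2.symm)

theorem LxH_bij (C : Finset T) {A B : PRep k (C × Q)} (f : RHom A B)
    (hf : ∀ p, Function.Bijective (f.app p)) (x : T × Q) :
    Function.Bijective ((LxH C f).app x) := by
  constructor
  · intro g g' hgg
    funext h
    exact (hf _).1 (congrFun hgg h)
  · intro g
    refine ⟨fun h => ((hf (fl C x.1 h.down, x.2)).2 (g h)).choose, ?_⟩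
    funext h
    exact ((hf (fl C x.1 h.down, x.2)).2 (g h)).choose_spec

/-- the extended convex set -/
def ext (C : Finset T) (W : Cvx (C × Q)) : Cvx (T × Q) :=
  ⟨{x | ∃ h : Has C x.1, (fl C x.1 h, x.2) ∈ W.1}, by
    constructor
    rintro x ⟨hx, hx'⟩ y ⟨hy, hy'⟩ z ⟨hz1, hz2⟩
    have hz : Has C z.1 := hx.mono hz1.1
    exact ⟨hz, W.2.out hx' hy' ⟨⟨fl_mono C hx hz hz1.1, hz1.2⟩, ⟨fl_mono C hz hy hz2.1, hz2.2⟩⟩⟩⟩

theorem has_coe (C : Finset T) (c : C) : Has C (c : T) := ⟨c, c.2, le_refl _⟩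

theorem fl_coe (C : Finset T) (c : C) (h : Has C (c : T)) : fl C (c : T) h = c := by
  apply le_antisymm
  · exact fl_le C _ h
  · exact le_fl C _ h c.2 (le_refl _)

theorem ext_conn (C : Finset T) (W : Cvx (C × Q)) (hW : Conn W.1) : Conn (ext C W).1 := by
  have emb : ∀ w : C × Q, w ∈ W.1 → (((w.1 : T), w.2) : T × Q) ∈ (ext C W).1 := by
    intro w hw
    refine ⟨has_coe C w.1, ?_⟩
    rw [fl_coe]; exact hw
  have path : ∀ a b : C × Q, Relation.ReflTransGen (fun x y => x ∈ W.1 ∧ y ∈ W.1 ∧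
      (x ≤ y ∨ y ≤ x)) a b → Relation.ReflTransGen (fun x y => x ∈ (ext C W).1 ∧
      y ∈ (ext C W).1 ∧ (x ≤ y ∨ y ≤ x)) (((a.1 : T), a.2) : T × Q) ((b.1 : T), b.2) := by
    intro a b hab
    induction hab with
    | refl => exact Relation.ReflTransGen.refl
    | tail _ h ih =>
      refine ih.tail ⟨emb _ h.1, emb _ h.2.1, ?_⟩
      rcases h.2.2 with h | h
      · exact Or.inl ⟨h.1, h.2⟩
      · exact Or.inr ⟨h.1, h.2⟩
  have down : ∀ x : T × Q, x ∈ (ext C W).1 → ∃ w ∈ W.1, (((w.1 : T), w.2) : T × Q) ≤ x := by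
    rintro x ⟨h, hx⟩
    exact ⟨_, hx, ⟨fl_le C x.1 h, le_refl _⟩⟩
  refine ⟨?_, ?_⟩
  · obtain ⟨w, hw⟩ := hW.1
    exact ⟨_, emb w hw⟩
  · intro x hx y hy
    obtain ⟨a, ha, hax⟩ := down x hx
    obtain ⟨b, hb, hby⟩ := down y hy
    have h1 := path a b (hW.2 a ha b hb)
    exact Relation.ReflTransGen.head ⟨hx, emb a ha, Or.inr hax⟩
      (h1.tail ⟨emb b hb, hy, Or.inl hby⟩)

open Classical in
/-- `Lx (ssum S) → ssum (ext S)` -/
noncomputable def LxS (C : Finset T) {m : ℕ} (S : Fin m → Cvx (C × Q)) :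
    RHom (Lx C (ssum k S)) (ssum k fun i => ext C (S i)) where
  app x :=
    { toFun := fun g i => ⟨if h : Has C x.1 then ((g ⟨h⟩) i).1 else 0, by
        by_cases h : Has C x.1
        · simp only [h, dif_pos]
          rcases ((g ⟨h⟩) i).2 with h' | h'
          · exact Or.inl ⟨h, h'⟩
          · exact Or.inr h'
        · exact Or.inr (dif_neg h)⟩
      map_add' := by
        intro g g'
        funext i
        apply Subtype.ext
        change (if h : Has C x.1 then ((g ⟨h⟩) i).1 + ((g' ⟨h⟩) i).1 else 0) =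
          (if h : Has C x.1 then ((g ⟨h⟩) i).1 else 0) +
          (if h : Has C x.1 then ((g' ⟨h⟩) i).1 else 0)
        by_cases h : Has C x.1
        · simp only [h, dif_pos]
        · simp only [h, dif_neg, not_false_iff, add_zero]
      map_smul' := by
        intro c g
        funext i
        apply Subtype.ext
        change (if h : Has C x.1 then c * ((g ⟨h⟩) i).1 else 0) =
          c * (if h : Has C x.1 then ((g ⟨h⟩) i).1 else 0)
        by_cases h : Has C x.1
        · simp only [h, dif_pos]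
        · simp only [h, dif_neg, not_false_iff, mul_zero] }
  comm := by
    intro x y hxy g
    funext i
    apply Subtype.ext
    change (if h : Has C y.1 then ((((Lx C (ssum k S)).map hxy g) ⟨h⟩ :
        ∀ i, Kif k ((fl C y.1 h, y.2) ∈ (S i).1)) i).1 else 0) =
      (if y ∈ (ext C (S i)).1 then (if h : Has C x.1 then ((g ⟨h⟩ :
        ∀ i, Kif k ((fl C x.1 h, x.2) ∈ (S i).1)) i).1 else 0) else 0)
    by_cases hy : Has C y.1
    · rw [dif_pos hy]
      by_cases hx : Has C x.1
      · rw [Lx_map_pos C _ hxy g ⟨hy⟩ hx, dif_pos hx]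
        rw [ssum_map_val]
        by_cases hm : (fl C y.1 hy, y.2) ∈ (S i).1
        · have hm' : y ∈ (ext C (S i)).1 := ⟨hy, hm⟩
          rw [if_pos hm, if_pos hm']
        · have hm' : y ∉ (ext C (S i)).1 := fun ⟨_, h⟩ => hm h
          rw [if_neg hm, if_neg hm']
      · rw [Lx_map_neg C _ hxy g ⟨hy⟩ hx, dif_neg hx]
        rw [ite_self]
        rfl
    · have hx : ¬ Has C x.1 := fun h => hy (h.mono hxy.1)
      rw [dif_neg hy, dif_neg hx, ite_self]

theorem LxS_bij (C : Finset T) {m : ℕ} (S : Fin m → Cvx (C × Q)) (x : T × Q) :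
    Function.Bijective ((LxS (k := k) C S).app x) := by
  classical
  constructor
  · intro g g' hgg
    funext h
    funext i
    apply Subtype.ext
    have h1 := congrArg Subtype.val (congrFun hgg i)
    change (if h : Has C x.1 then ((g ⟨h⟩ :
        ∀ i, Kif k ((fl C x.1 h, x.2) ∈ (S i).1)) i).1 else 0) =
      (if h : Has C x.1 then ((g' ⟨h⟩ :
        ∀ i, Kif k ((fl C x.1 h, x.2) ∈ (S i).1)) i).1 else 0) at h1
    rw [dif_pos h.down, dif_pos h.down] at h1
    exact h1
  · intro z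
    refine ⟨fun h i => ⟨(z i).1, ?_⟩, ?_⟩
    · rcases (z i).2 with ⟨_, h'⟩ | h'
      · exact Or.inl h'
      · exact Or.inr h'
    · funext i
      apply Subtype.ext
      change (if h : Has C x.1 then (z i).1 else 0) = (z i).1
      by_cases h : Has C x.1
      · rw [dif_pos h]
      · rw [dif_neg h]
        refine ((z i).2.resolve_left ?_).symm
        rintro ⟨h', _⟩
        exact h h'

end lx

theorem tLSP : Q4.SR.SLSP.{u} := by
  intro k _ T Q _ _ _ C m S N f hf
  obtain ⟨n, S', g, h1, h2⟩ := spread_decomp (k := k) S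
  refine ⟨n, fun i => ext C (S' i), rcomp (LxH C f) (rcomp (LxH C g)
    (rinv (LxS C S') (LxS_bij C S'))), fun i => ext_conn C _ (h1 i), ?_⟩
  intro p
  exact (LxH_bij C f hf p).comp ((LxH_bij C g h2 p).comp (rinv_bij _ _ p))

end Q4.SR.Q121
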