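import Pool.Agent.Q121.SR.Fp

/-! # Project SR: JOB RES (helper121) -/

open Set

namespace Q4.SR.Q121

universe u

variable {k : Type u} [Field k] {P : Type u} [PartialOrder P]

section basics

variable {m : ℕ} {W : Cvx P} {T : Fin m → Cvx P} {N : PRep k P}

/-- elements of the free functor -/
def mkF (η : ∀ i, H k W.1 (T i).1) : (fre k T).obj W := η

/-- components -/
def unF (η : (fre k T).obj W) (i : Fin m) : H k W.1 (T i).1 := η i

/-- coordinates -/
def coF (j : Fin m) (q : P) : (fre k T).obj W →ₗ[k] k where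
  toFun η := (unF η j).1 q
  map_add' _ _ := rfl
  map_smul' _ _ := rfl

theorem coF_eq (η : (fre k T).obj W) (j : Fin m) (q : P) : coF j q η = (unF η j).1 q := rfl

theorem extF {η θ : (fre k T).obj W} (h : ∀ j q, coF j q η = coF j q θ) : η = θ := by
  funext j
  apply Subtype.ext
  funext q
  exact h j q

theorem coF_act {W' : Cvx P} (θ : H k W.1 W'.1) (η : (fre k T).obj W') (j : Fin m) (q : P) :
    coF j q ((fre k T).act θ η) = θ.1 q * coF j q η := rfl

/-- value of a section -/
def evS (p : P) : (secF N).obj W →ₗ[k] N.V p where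
  toFun s := (show Sec W N from s).1 p
  map_add' _ _ := rfl
  map_smul' _ _ := rfl

/-- make a section -/
def mkS (s : Sec W N) : (secF N).obj W := s

theorem evS_mk (s : Sec W N) (p : P) : evS p (mkS s) = s.1 p := rfl

theorem extS {s t : (secF N).obj W} (h : ∀ p, evS p s = evS p t) : s = t := by
  apply Subtype.ext
  funext p
  exact h p

theorem evS_act {W' : Cvx P} (θ : H k W.1 W'.1) (s : (secF N).obj W') (p : P) :
    evS p ((secF N).act θ s) = θ.1 p • evS p s := rfl

theorem evS_off (s : (secF N).obj W) (p : P) (hp : p ∉ W.1) : evS p s = 0 :=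
  (show Sec W N from s).2.1 p hp

theorem evS_map (s : (secF N).obj W) (p q : P) (h : p ≤ q) (hp : p ∈ W.1) :
    N.map h (evS p s) = evS q s := (show Sec W N from s).2.2 p q h hp

/-- elements of `ssum` -/
def mkV {p : P} (c : ∀ i, Kif k (p ∈ (T i).1)) : (ssum k T).V p := c

/-- coordinates in `ssum` -/
def coV (i : Fin m) {p : P} : (ssum k T).V p →ₗ[k] k where
  toFun c := ((show ∀ i, Kif k (p ∈ (T i).1) from c) i).1
  map_add' _ _ := rfl
  map_smul' _ _ := rfl

theorem extV {p : P} {c d : (ssum k T).V p} (h : ∀ i, coV i c = coV i d) : c = d := by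
  funext i
  apply Subtype.ext
  exact h i

open Classical in
theorem coV_map {p q : P} (h : p ≤ q) (c : (ssum k T).V p) (i : Fin m) :
    coV i ((ssum k T).map h c) = if q ∈ (T i).1 then coV i c else 0 := rfl

theorem coV_off {p : P} (c : (ssum k T).V p) (i : Fin m) (hp : p ∉ (T i).1) : coV i c = 0 :=
  ((show ∀ i, Kif k (p ∈ (T i).1) from c) i).2.resolve_left hp

/-- the vector of values of a family of morphisms at a point -/
def evV (q : P) : (fre k T).obj W →ₗ[k] (ssum k T).V q where
  toFun η := mkV fun i => ⟨coF i q η, by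
    by_cases h : coF i q η = 0
    · exact Or.inr h
    · exact Or.inl (Hsupp (unF η i) h).2⟩
  map_add' _ _ := rfl
  map_smul' _ _ := rfl

theorem coV_evV (η : (fre k T).obj W) (q : P) (i : Fin m) : coV i (evV q η) = coF i q η := rfl

theorem evV_sec (η : (fre k T).obj W) : (fun q => evV q η) ∈ Sec W (ssum k T) := by
  classical
  refine ⟨fun q hq => ?_, fun q r h hq => ?_⟩
  · apply extV
    intro i
    rw [coV_evV, map_zero]
    exact Hleft (unF η i) hq
  · apply extV
    intro i
    rw [coV_map, coV_evV, coV_evV]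
    by_cases hr : r ∈ (T i).1
    · rw [if_pos hr]
      exact Heq (unF η i) h hq hr
    · rw [if_neg hr]
      exact (Hright (unF η i) hr).symm

/-- a section of `ssum` gives morphisms -/
noncomputable def ofSec (z : ∀ p, (ssum k T).V p) (hz : z ∈ Sec W (ssum k T)) : (fre k T).obj W := mkF fun i =>
  ⟨fun q => coV i (z q), by
    classical
    refine ⟨fun q hq => ⟨?_, ?_⟩, fun q r h hq hr => ?_⟩
    · by_contra hn
      apply hq
      change coV i (z q) = 0
      rw [hz.1 q hn, map_zero]
    · by_contra hn
      apply hq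
      exact coV_off (z q) i hn
    · change coV i (z q) = coV i (z r)
      rw [← hz.2 q r h hq, coV_map, if_pos hr]⟩

theorem coF_ofSec (z : ∀ p, (ssum k T).V p) (hz : z ∈ Sec W (ssum k T)) (i : Fin m) (q : P) :
    coF i q (ofSec z hz) = coV i (z q) := rfl

theorem evV_ofSec (z : ∀ p, (ssum k T).V p) (hz : z ∈ Sec W (ssum k T)) (q : P) :
    evV q (ofSec z hz) = z q := extV fun _ => rfl

end basics

open Classical in
/-- the generator -/
noncomputable def gen1 {m : ℕ} (T : Fin m → Cvx P) (i : Fin m) : (fre k T).obj (T i) :=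
  mkF (Pi.single i (Hone k (T i).1) : ∀ j, H k (T i).1 (T j).1)

open Classical in
theorem coF_gen1 {m : ℕ} (T : Fin m → Cvx P) (i j : Fin m) (q : P) :
    coF j q (gen1 (k := k) T i) = if i = j ∧ q ∈ (T j).1 then 1 else 0 := by
  by_cases h : i = j
  · subst h
    have : coF i q (gen1 (k := k) T i) = (Hone k (T i).1).1 q := by
      change ((Pi.single i (Hone k (T i).1) : ∀ j, H k (T i).1 (T j).1) i).1 q = _
      rw [Pi.single_eq_same]
    rw [this]
    by_cases hq : q ∈ (T i).1
    · simp [Hone, ind, hq]
    · simp [Hone, ind, hq]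
  · have : coF j q (gen1 (k := k) T i) = 0 := by
      change ((Pi.single i (Hone k (T i).1) : ∀ j, H k (T i).1 (T j).1) j).1 q = _
      rw [Pi.single_eq_of_ne (Ne.symm h)]
      rfl
    rw [this, if_neg (fun hh => h hh.1)]

/-- the images of the generators -/
noncomputable def gx {m : ℕ} {T : Fin m → Cvx P} {N : PRep k P} (f : PMHom (fre k T) (secF N))
    (i : Fin m) : (secF N).obj (T i) :=
  f.app (T i) (gen1 T i)

theorem fre_expand {m : ℕ} {T : Fin m → Cvx P} (W : Cvx P) (η : (fre k T).obj W) :
    η = ∑ i, (fre k T).act (unF η i) (gen1 T i) := by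
  classical
  apply extF
  intro j q
  rw [map_sum]
  have h1 : ∀ i, coF j q ((fre k T).act (unF η i) (gen1 T i)) =
      (unF η i).1 q * (if i = j ∧ q ∈ (T j).1 then 1 else 0) := by
    intro i
    rw [coF_act, coF_gen1]
  rw [Finset.sum_congr rfl fun i _ => h1 i, Finset.sum_eq_single j]
  · by_cases hq : q ∈ (T j).1
    · rw [if_pos ⟨rfl, hq⟩, mul_one]; rfl
    · rw [if_neg (fun h => hq h.2), mul_zero]
      exact Hright (unF η j) hq
  · intro i _ hij
    rw [if_neg (fun h => hij h.1), mul_zero]
  · intro h; exact absurd (Finset.mem_univ j) h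

theorem app_formula {m : ℕ} {T : Fin m → Cvx P} {N : PRep k P}
    (f : PMHom (fre k T) (secF N)) (W : Cvx P) (η : (fre k T).obj W) (p : P) :
    evS p (f.app W η) = ∑ i, coF i p η • evS p (gx f i) := by
  conv_lhs => rw [fre_expand W η]
  rw [map_sum, map_sum]
  refine Finset.sum_congr rfl fun i _ => ?_
  rw [f.comm, evS_act]
  rfl

/-- the morphism of representations -/
noncomputable def gh {m : ℕ} {T : Fin m → Cvx P} {N : PRep k P} (f : PMHom (fre k T) (secF N)) :
    RHom (ssum k T) N where
  app p :=
    { toFun := fun c => ∑ i, coV i c • evS p (gx f i)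
      map_add' := by
        intro c c'
        rw [← Finset.sum_add_distrib]
        exact Finset.sum_congr rfl fun i _ => by rw [map_add, add_smul]
      map_smul' := by
        intro r c
        rw [RingHom.id_apply, Finset.smul_sum]
        exact Finset.sum_congr rfl fun i _ => by rw [map_smul, smul_eq_mul, mul_smul] }
  comm := by
    classical
    intro p q h c
    change ∑ i, coV i ((ssum k T).map h c) • evS q (gx f i) =
      N.map h (∑ i, coV i c • evS p (gx f i))
    rw [map_sum]
    refine Finset.sum_congr rfl fun i _ => ?_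
    rw [map_smul, coV_map]
    by_cases hp : p ∈ (T i).1
    · rw [evS_map (gx f i) p q h hp]
      by_cases hq : q ∈ (T i).1
      · rw [if_pos hq]
      · rw [evS_off (gx f i) q hq, smul_zero, smul_zero]
    · rw [coV_off c i hp, ite_self, zero_smul, zero_smul]

theorem gh_app {m : ℕ} {T : Fin m → Cvx P} {N : PRep k P} (f : PMHom (fre k T) (secF N))
    (p : P) (c : (ssum k T).V p) : (gh f).app p c = ∑ i, coV i c • evS p (gx f i) := rfl

theorem gh_ev {m : ℕ} {T : Fin m → Cvx P} {N : PRep k P} (f : PMHom (fre k T) (secF N))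
    (W : Cvx P) (η : (fre k T).obj W) (p : P) :
    (gh f).app p (evV p η) = evS p (f.app W η) := by
  rw [gh_app, app_formula]
  rfl

open Classical in
/-- section over `Ici p` with given value -/
noncomputable def secI (N : PRep k P) (p : P) (v : N.V p) : Sec (upC p) N :=
  ⟨fun q => if h : p ≤ q then N.map h v else 0, by
    refine ⟨fun q hq => dif_neg hq, fun q r h hq => ?_⟩
    have h1 : p ≤ q := hq
    have h2 : p ≤ r := h1.trans h
    change N.map h (if h : p ≤ q then N.map h v else 0) = (if h : p ≤ r then N.map h v else 0)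
    rw [dif_pos h1, dif_pos h2, N.map_map]⟩

theorem secI_self (N : PRep k P) (p : P) (v : N.V p) : (secI N p v).1 p = v := by
  classical
  have : (secI N p v).1 p = N.map (le_refl p) v := dif_pos le_rfl
  rw [this, N.map_refl]

theorem gh_surj {m : ℕ} {T : Fin m → Cvx P} {N : PRep k P} (f : PMHom (fre k T) (secF N))
    (hf : ∀ W, Function.Surjective (f.app W)) (p : P) :
    Function.Surjective ((gh f).app p) := by
  intro v
  obtain ⟨η, hη⟩ := hf (upC p) (mkS (secI N p v))
  refine ⟨evV p η, ?_⟩
  rw [gh_ev, hη, evS_mk]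
  exact secI_self N p v

theorem sec_zero {N : PRep k P} {p : P} (s : (secF N).obj (upC p)) (h : evS p s = 0) : s = 0 := by
  apply extS
  intro q
  rw [map_zero]
  by_cases hq : p ≤ q
  · rw [← evS_map s p q hq (le_refl p), h, map_zero]
  · exact evS_off s q hq

open Classical in
/-- a family of morphisms on `Ici p` with given values at `p` -/
noncomputable def famI {m : ℕ} (T : Fin m → Cvx P) (p : P) (c : (ssum k T).V p) :
    (fre k T).obj (upC p) := mkF fun i =>
  ⟨fun q => if p ≤ q ∧ q ∈ (T i).1 then coV i c else 0, by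
    refine ⟨fun q hq => ?_, fun q r h hq hr => ?_⟩
    · by_cases h : p ≤ q ∧ q ∈ (T i).1
      · exact h
      · exact absurd (if_neg h) hq
    · have h1 : p ≤ q := hq
      have h2 : p ≤ r := h1.trans h
      change (if p ≤ q ∧ q ∈ (T i).1 then coV i c else 0) =
        (if p ≤ r ∧ r ∈ (T i).1 then coV i c else 0)
      by_cases hp : p ∈ (T i).1
      · have h3 : q ∈ (T i).1 := (T i).2.out hp hr ⟨h1, h⟩
        rw [if_pos ⟨h1, h3⟩, if_pos ⟨h2, hr⟩]
      · rw [coV_off c i hp, ite_self, ite_self]⟩

theorem famI_ev {m : ℕ} (T : Fin m → Cvx P) (p : P) (c : (ssum k T).V p) :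
    evV p (famI T p c) = c := by
  classical
  apply extV
  intro i
  rw [coV_evV]
  change (if p ≤ p ∧ p ∈ (T i).1 then coV i c else 0) = coV i c
  by_cases hp : p ∈ (T i).1
  · rw [if_pos ⟨le_rfl, hp⟩]
  · rw [coV_off c i hp, ite_self]

theorem gh_inj {m : ℕ} {T : Fin m → Cvx P} {N : PRep k P} (f : PMHom (fre k T) (secF N))
    (hf : ∀ W, Function.Injective (f.app W)) (p : P) :
    Function.Injective ((gh f).app p) := by
  rw [← LinearMap.ker_eq_bot, LinearMap.ker_eq_bot']
  intro c hc
  rw [← famI_ev T p c, gh_ev] at hc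
  have h1 := sec_zero _ hc
  have h2 : famI T p c = 0 := by
    apply hf (upC p)
    rw [map_zero]
    exact h1
  rw [← famI_ev T p c, h2, map_zero]

/-- the functor of sections of the kernel is the kernel -/
noncomputable def kerMap {m : ℕ} {T : Fin m → Cvx P} {N : PRep k P} {K : PM k P}
    (i : PMHom K (fre k T)) (p : PMHom (fre k T) (secF N)) (hs : SES i p) :
    PMHom K (secF (rker (gh p))) where
  app W :=
    { toFun := fun κ => mkS ⟨fun q => ⟨evV q (i.app W κ), by
          rw [LinearMap.mem_ker, gh_ev]
          have : p.app W (i.app W κ) = 0 := (hs.2.1 W _).mpr ⟨κ, rfl⟩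
          rw [this, map_zero]⟩, by
          have h0 := evV_sec (i.app W κ)
          refine ⟨fun q hq => ?_, fun q r h hq => ?_⟩
          · apply Subtype.ext
            exact h0.1 q hq
          · apply Subtype.ext
            exact h0.2 q r h hq⟩
      map_add' := by
        intro κ κ'
        apply extS
        intro q
        apply Subtype.ext
        change evV q (i.app W (κ + κ')) = evV q (i.app W κ) + evV q (i.app W κ')
        rw [map_add, map_add]
      map_smul' := by
        intro c κ
        apply extS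
        intro q
        apply Subtype.ext
        change evV q (i.app W (c • κ)) = c • evV q (i.app W κ)
        rw [map_smul, map_smul] }
  comm := by
    intro W W' η κ
    apply extS
    intro q
    apply Subtype.ext
    change evV q (i.app W (K.act η κ)) = η.1 q • evV q (i.app W' κ)
    rw [i.comm]
    apply extV
    intro j
    rw [coV_evV, coF_act, map_smul, coV_evV, smul_eq_mul]

theorem kerMap_val {m : ℕ} {T : Fin m → Cvx P} {N : PRep k P} {K : PM k P}
    (i : PMHom K (fre k T)) (p : PMHom (fre k T) (secF N)) (hs : SES i p) (W : Cvx P)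
    (κ : K.obj W) (q : P) :
    (rkerI (gh p)).app q (evS q ((kerMap i p hs).app W κ)) = evV q (i.app W κ) := rfl

theorem kerMap_bij {m : ℕ} {T : Fin m → Cvx P} {N : PRep k P} {K : PM k P}
    (i : PMHom K (fre k T)) (p : PMHom (fre k T) (secF N)) (hs : SES i p) (W : Cvx P) :
    Function.Bijective ((kerMap i p hs).app W) := by
  constructor
  · rw [← LinearMap.ker_eq_bot, LinearMap.ker_eq_bot']
    intro κ hκ
    apply hs.1 W
    rw [map_zero]
    apply extF
    intro j q
    have h1 := kerMap_val i p hs W κ q
    rw [hκ, map_zero, map_zero] at h1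
    rw [map_zero, ← coV_evV, ← h1, map_zero]
  · intro z
    have hz : (fun q => (rkerI (gh p)).app q (evS q z)) ∈ Sec W (ssum k T) := by
      refine ⟨fun q hq => ?_, fun q r h hq => ?_⟩
      · change (rkerI (gh p)).app q (evS q z) = 0
        rw [evS_off z q hq, map_zero]
      · change (ssum k T).map h ((rkerI (gh p)).app q (evS q z)) =
          (rkerI (gh p)).app r (evS r z)
        rw [← (rkerI (gh p)).comm, evS_map z q r h hq]
    have hη : p.app W (ofSec _ hz) = 0 := by
      apply extS
      intro q
      rw [← gh_ev p W _ q, evV_ofSec, map_zero]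
      exact LinearMap.mem_ker.mp (evS q z).2
    obtain ⟨κ, hκ⟩ := (hs.2.1 W _).mp hη
    refine ⟨κ, ?_⟩
    apply extS
    intro q
    apply Subtype.ext
    have h1 := kerMap_val i p hs W κ q
    rw [hκ, evV_ofSec] at h1
    exact h1

theorem tRES : Q4.SR.STK.{u} → Q4.SR.SRES.{u} := by
  intro hTK k _ P _ _ n
  induction n with
  | zero =>
    intro N hN h
    obtain ⟨m, T, f, hf⟩ := h
    exact ⟨m, T, gh f, fun p => ⟨gh_inj f (fun W => (hf W).1) p, gh_surj f (fun W => (hf W).2) p⟩⟩
  | succ n ih =>
    intro N hN h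
    obtain ⟨m, T, K, i, p, hs, hK⟩ := h
    have hfd : (rker (gh p)).FD := by
      intro q
      have := ssum_fd (k := k) T q
      change FiniteDimensional k (LinearMap.ker ((gh p).app q))
      infer_instance
    refine ⟨m, T, rker (gh p), rkerI (gh p), gh p, hfd, ⟨?_, ?_, ?_⟩, ?_, ?_⟩
    · intro x
      exact Subtype.val_injective
    · intro x y
      constructor
      · intro hy
        exact ⟨⟨y, hy⟩, rfl⟩
      · rintro ⟨z, rfl⟩
        exact z.2
    · exact gh_surj p hs.2.2
    · intro W x hx
      obtain ⟨η, hη⟩ := hs.2.2 W (mkS ⟨x, hx⟩)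
      refine ⟨fun q => evV q η, evV_sec η, fun r => ?_⟩
      rw [gh_ev, hη]
      rfl
    · exact ih _ hfd ((hTK.2.1) n K _ (kerMap i p hs) (kerMap_bij i p hs) hK)

end Q4.SR.Q121
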